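import Mathlib
import Pool.Agent.K7.H58.Core.Horo

/-!
# Cusp forms of small eigenvalue on all congruence groups, high in the cusps

Let `Γ` be any congruence subgroup of `SL(2, ℤ)` and let `N ≥ 1` be such that every
`(a, b; c, d)` in `Γ` has `c = 0` or `|c| ≥ N`: for example `Γ = Γ₀(N)`, `Γ₁(N)` or `Γ(N)`, any
`N ≥ 1`, or any congruence group between `Γ(N)` and `Γ₀(N)`.  Let `f` be a real Maass cusp form
for `Γ` with eigenvalue `μ > 0`, let `z₀` be a point with `N Im z₀ > 1` and let `D` be the nodal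
domain of `f` on the surface `Γ\ℍ` which contains `z₀`.  Put `P = (N Im z₀ + 1 / (N Im z₀)) / 2`.
If, for some `s ≥ 1/2`,

* `∫_D |f| < (2π / s) (P^s - 1) |f(z₀)|`, or
* `∫_D f² < 2π (∫_1^P t^(2s-2) dt) |f(z₀)|²`,

then `μ ≥ s (1 - s)`.

For `s = 1/2` the conclusion is Selberg's bound `μ ≥ 1/4`, and the two conditions read
`∫_D |f| < 4π (√P - 1) |f(z₀)|` and `∫_D f² < 2π log P |f(z₀)|²`.  In other words: if
`μ < s (1 - s)`, `s > 1/2`, then the values of `f` in every nodal domain `D` decay in the cusp,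
uniformly in the group, at least like `|f(z)|² ≤ C_s (N Im z)^(1-2s) ∫_D f²`.

Proof: the ball about `z₀` with `cosh R = P` is contained in the horoball `Im z > 1/N`, so that
only the translations of `Γ` can map one of its points to another one.  For `μ < 1/4` no
translation of `Γ` maps a nodal domain in `ℍ` to itself (winding argument and minimum
principle), although there are many translations in `Γ` if the cusp is narrow (`Γ₀(N)`).  So the
part of the nodal domain in this ball is embedded in `D`, and the sharp mean value inequalities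
apply in the whole ball.
-/

set_option autoImplicit false

namespace Pool.Agent.Results.MP_a812b2_nt.AllCongruenceGroups

open UpperHalfPlane MeasureTheory
open scoped MatrixGroups

/-- `f` is a real Maass cusp form for the group `Γ ⊇ Γ(M)` with Laplace eigenvalue `μ`. -/
structure IsMaassCuspForm (Γ : Subgroup SL(2, ℤ)) (M : ℕ) (f : ℂ → ℝ) (μ : ℝ) : Prop where
  /-- `f` is smooth on the upper half plane -/
  smooth : ContDiffOn ℝ (⊤ : ℕ∞) f {w : ℂ | 0 < w.im}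
  /-- `f` is `Γ`-invariant -/
  invariant : ∀ γ ∈ Γ, ∀ z : ℍ, f ((γ • z : ℍ) : ℂ) = f (z : ℂ)
  /-- `-y² (f_xx + f_yy) = μ f` -/
  eigen : ∀ z : ℍ,
    -((z.im : ℝ) ^ 2) *
      (deriv (fun s : ℝ => deriv (fun t : ℝ => f ((t : ℂ) + (z.im : ℂ) * Complex.I)) s) z.re
        + deriv (fun s : ℝ => deriv (fun t : ℝ => f ((z.re : ℂ) + (t : ℂ) * Complex.I)) s) z.im)
      = μ * f (z : ℂ)
  /-- `f` is square integrable on `Γ\ℍ`, i.e. on each translate of the standard domain -/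
  squareIntegrable : ∀ γ : SL(2, ℤ), IntegrableOn (fun w : ℂ => ‖f w‖ ^ 2 / w.im ^ 2)
    ((fun z : ℍ => ((γ • z : ℍ) : ℂ)) '' ModularGroup.fd)
  /-- the constant terms of `f` at all cusps vanish (all cusp widths divide `M`) -/
  cuspidal : ∀ γ : SL(2, ℤ), ∀ y : ℝ, 0 < y →
    ∫ x in (0 : ℝ)..M, f ((γ • ofComplex (x + y * Complex.I) : ℍ) : ℂ) = 0

/-- the nodal domain of `f` containing `z0`: the connected component of `z0` in `{f ≠ 0}` -/
def nodalDomain (f : ℂ → ℝ) (z0 : ℍ) : Set ℍ := connectedComponentIn {z : ℍ | f z ≠ 0} z0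

/-- `S` is contained in the union of the `Γ`-translates of `E` -/
def Covers (Γ : Subgroup SL(2, ℤ)) (E S : Set ℍ) : Prop :=
  ∀ z ∈ S, ∃ γ ∈ Γ, ∃ w ∈ E, z = γ • w

/-- the union of the `Γ`-translates of `S` -/
def saturation (Γ : Subgroup SL(2, ℤ)) (S : Set ℍ) : Set ℍ :=
  {z : ℍ | ∃ γ ∈ Γ, γ • z ∈ S}

/-- **High points of nodal domains.** -/
theorem result (M N : ℕ) (hM : 1 ≤ M) (Γ : Subgroup SL(2, ℤ))
    (hΓM : CongruenceSubgroup.Gamma M ≤ Γ) (hΓN : ∀ γ ∈ Γ, γ 1 0 = 0 ∨ (N : ℤ) ≤ |γ 1 0|)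
    (f : ℂ → ℝ) (μ : ℝ) (hμ : 0 < μ) (hf : IsMaassCuspForm Γ M f μ) (s : ℝ) (hs : 1 / 2 ≤ s)
    (z0 : ℍ) (h0 : f z0 ≠ 0) (hy : 1 < (N : ℝ) * z0.im)
    (E : Set ℍ) (hE : MeasurableSet E) (hcov : Covers Γ E (nodalDomain f z0))
    (P : ℝ) (hP : P = ((N : ℝ) * z0.im + ((N : ℝ) * z0.im)⁻¹) / 2)
    (hsmall :
      ∫⁻ z in E ∩ saturation Γ (nodalDomain f z0), ENNReal.ofReal |f z| <
        ENNReal.ofReal (2 * Real.pi / s * (P ^ s - 1) * |f z0|) ∨
      ∫⁻ z in E ∩ saturation Γ (nodalDomain f z0), ENNReal.ofReal (f z ^ 2) <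
        ENNReal.ofReal (2 * Real.pi * (∫ t in (1 : ℝ)..P, t ^ (2 * s - 2)) * f z0 ^ 2)) :
    s * (1 - s) ≤ μ := by
  by_contra hc
  push Not at hc
  have hμ4 : μ < 1 / 4 := by nlinarith [sq_nonneg (s - 1 / 2)]
  have hEig : Pool.Agent.K7.H58.Nodal.Eig M f μ :=
    Pool.Agent.K7.H58.Nodal.eig_of_cusp (by omega) hμ hμ4
      (hf.smooth.of_le (WithTop.coe_le_coe.2 (le_top : (2 : ℕ∞) ≤ ⊤)))
      (fun γ hγ => hf.invariant γ (hΓM hγ)) hf.eigen hf.squareIntegrable hf.cuspidal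
  obtain ⟨h1, h2⟩ := Pool.Agent.K7.H58.Core.horo_bound hΓN hEig hf.invariant hμ hs hc h0 hy hE
    hcov
  rw [hP] at hsmall
  rcases hsmall with h3 | h3
  · exact absurd h3 (not_lt.2 h1)
  · exact absurd h3 (not_lt.2 h2)

/-- The hypothesis on `N` holds for all subgroups of `Γ₀(N)`. -/
theorem gamma0_condition (N : ℕ) (Γ : Subgroup SL(2, ℤ))
    (hΓ : Γ ≤ CongruenceSubgroup.Gamma0 N) : ∀ γ ∈ Γ, γ 1 0 = 0 ∨ (N : ℤ) ≤ |γ 1 0| := by
  intro γ hγ
  have h1 : ((γ 1 0 : ℤ) : ZMod N) = 0 := CongruenceSubgroup.Gamma0_mem.1 (hΓ hγ)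
  rw [ZMod.intCast_zmod_eq_zero_iff_dvd] at h1
  rcases eq_or_ne (γ 1 0) 0 with h2 | h2
  · exact Or.inl h2
  · exact Or.inr (Int.le_of_dvd (abs_pos.2 h2) ((dvd_abs _ _).2 h1))

end Pool.Agent.Results.MP_a812b2_nt.AllCongruenceGroups
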