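import Mathlib
import Pool.Agent.K7.H58.Core.Main

/-!
# The convex core of a nodal domain of a cusp form of small eigenvalue on `Γ(N)` is large

Let `N ≥ 3`, let `f` be a real Maass cusp form for `Γ(N)` with eigenvalue `μ > 0`, let `s ≥ 1/2`,
and let `Ω ⊂ ℍ` be a nodal domain of `f` (a component of `{f ≠ 0}`), with stabiliser `Λ` in
`Γ(N)`.  If `Λ` preserves some nonempty geodesically convex set `K ⊂ ℍ` such that `Λ\K` has area
at most `V` and `13 + (10/9) V ≤ ((N² - 3)/e²)^s`, then `μ ≥ s (1 - s)`.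

For a finitely generated `Λ` one can take for `K` the convex hull of the limit set (an axis, if
`Λ` is cyclic; a point, if `Λ` is trivial).  Then `Λ\K` is the convex core, of area `2π (k - 1)` by
Gauss-Bonnet, where `k` is the rank of the free group `Λ`; thus a nodal domain on `Γ(N)\ℍ` of a
form with `μ < s (1 - s)` carries at least a constant times `N^(2s)` independent loops.
(This paragraph is not formalised; the theorem is about an arbitrary `K`.)

The proof: parabolic elements do not preserve `Ω`, so all nontrivial elements of `Λ` move every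
point by at least `2 arcosh((N²-2)/2)`; a comparison of areas bounds the number of `2`-separated
points of `K` on a circle of radius `log (N² - 3)`; this gives the convergence of the Poincaré
series of `Λ` of an exponent `a` smaller than `s'`, where `μ = s' (1 - s')`; and a Schur test with
weights given by the Poincaré series, based on the mean value inequality for the restriction of
`f` to `Ω`, shows that `f` would vanish on `Ω`.
-/

set_option autoImplicit false

namespace Pool.Agent.Results.MP_a812b2_nt.ConvexCore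

open UpperHalfPlane MeasureTheory
open scoped MatrixGroups Pointwise

/-- `f` is a real Maass cusp form for `Γ(N)` with Laplace eigenvalue `μ`. -/
structure IsMaassCuspForm (N : ℕ) (f : ℂ → ℝ) (μ : ℝ) : Prop where
  /-- `f` is smooth on the upper half plane -/
  smooth : ContDiffOn ℝ (⊤ : ℕ∞) f {w : ℂ | 0 < w.im}
  /-- `f` is `Γ(N)`-invariant -/
  invariant : ∀ γ ∈ CongruenceSubgroup.Gamma N, ∀ z : ℍ, f ((γ • z : ℍ) : ℂ) = f (z : ℂ)
  /-- `-y² (f_xx + f_yy) = μ f` -/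
  eigen : ∀ z : ℍ,
    -((z.im : ℝ) ^ 2) *
      (deriv (fun s : ℝ => deriv (fun t : ℝ => f ((t : ℂ) + (z.im : ℂ) * Complex.I)) s) z.re
        + deriv (fun s : ℝ => deriv (fun t : ℝ => f ((z.re : ℂ) + (t : ℂ) * Complex.I)) s) z.im)
      = μ * f (z : ℂ)
  /-- `f` is square integrable on `Γ(N)\ℍ`, i.e. on each translate of the standard domain -/
  squareIntegrable : ∀ γ : SL(2, ℤ), IntegrableOn (fun w : ℂ => ‖f w‖ ^ 2 / w.im ^ 2)
    ((fun z : ℍ => ((γ • z : ℍ) : ℂ)) '' ModularGroup.fd)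
  /-- the constant terms of `f` at all cusps vanish -/
  cuspidal : ∀ γ : SL(2, ℤ), ∀ y : ℝ, 0 < y →
    ∫ x in (0 : ℝ)..N, f ((γ • ofComplex (x + y * Complex.I) : ℍ) : ℂ) = 0

/-- the nodal domain of `f` containing `z0`: the connected component of `z0` in `{f ≠ 0}` -/
def nodalDomain (f : ℂ → ℝ) (z0 : ℍ) : Set ℍ := connectedComponentIn {z : ℍ | f z ≠ 0} z0

/-- the group of all elements of `Γ(N)` that map the nodal domain containing `z0` to itself -/
noncomputable def domainGroup (N : ℕ) (f : ℂ → ℝ) (z0 : ℍ) : Subgroup SL(2, ℤ) :=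
  CongruenceSubgroup.Gamma N ⊓ MulAction.stabilizer SL(2, ℤ) (nodalDomain f z0)

/-- `K` contains with two points `x`, `y` the geodesic segment joining them, i.e. all points `z`
with `d(x, z) + d(z, y) = d(x, y)` for the hyperbolic distance `d` -/
def GeodesicallyConvex (K : Set ℍ) : Prop :=
  ∀ x ∈ K, ∀ y ∈ K, ∀ z : ℍ, dist x z + dist z y = dist x y → z ∈ K

theorem isEig {N : ℕ} (hN : 3 ≤ N) {f : ℂ → ℝ} {μ : ℝ} (hμ : 0 < μ) (hμ4 : μ < 1 / 4)
    (hf : IsMaassCuspForm N f μ) : Pool.Agent.K7.H58.Nodal.Eig N f μ :=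
  Pool.Agent.K7.H58.Nodal.eig_of_cusp (by omega) hμ hμ4
    (hf.smooth.of_le (WithTop.coe_le_coe.2 (le_top : (2 : ℕ∞) ≤ ⊤))) hf.invariant hf.eigen
    hf.squareIntegrable hf.cuspidal

theorem smul_sub {N : ℕ} {f : ℂ → ℝ}
    (hinv : ∀ γ ∈ CongruenceSubgroup.Gamma N, ∀ z : ℍ, f ((γ • z : ℍ) : ℂ) = f (z : ℂ)) {z0 : ℍ}
    {γ : SL(2, ℤ)} (hγ : γ ∈ CongruenceSubgroup.Gamma N) {z : ℍ} (hz : z ∈ nodalDomain f z0)
    (hγz : γ • z ∈ nodalDomain f z0) : γ • nodalDomain f z0 ⊆ nodalDomain f z0 := by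
  have h1 : IsPreconnected (γ • nodalDomain f z0) := by
    have := (isPreconnected_connectedComponentIn (F := {z : ℍ | f z ≠ 0}) (x := z0)).image
      (fun w : ℍ => γ • w) (Pool.Agent.K7.H58.Nodal.cont_smul γ).continuousOn
    exact this
  have h2 : γ • nodalDomain f z0 ⊆ {z : ℍ | f z ≠ 0} := by
    rintro _ ⟨w, hw, rfl⟩
    have h3 : f w ≠ 0 := connectedComponentIn_subset {z : ℍ | f z ≠ 0} z0 hw
    show f ((γ • w : ℍ) : ℂ) ≠ 0
    rw [hinv γ hγ]
    exact h3
  have h3 := h1.subset_connectedComponentIn (Set.smul_mem_smul_set hz) h2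
  have h4 : connectedComponentIn {z : ℍ | f z ≠ 0} (γ • z) = nodalDomain f z0 :=
    (connectedComponentIn_eq hγz).symm
  rwa [h4] at h3

theorem mem_domainGroup {N : ℕ} {f : ℂ → ℝ}
    (hinv : ∀ γ ∈ CongruenceSubgroup.Gamma N, ∀ z : ℍ, f ((γ • z : ℍ) : ℂ) = f (z : ℂ)) {z0 : ℍ}
    {γ : SL(2, ℤ)} (hγ : γ ∈ CongruenceSubgroup.Gamma N) {z : ℍ} (hz : z ∈ nodalDomain f z0)
    (hγz : γ • z ∈ nodalDomain f z0) : γ ∈ domainGroup N f z0 := by
  refine ⟨hγ, ?_⟩
  have h1 := smul_sub hinv hγ hz hγz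
  have h2 := smul_sub hinv (inv_mem hγ) hγz (by rw [inv_smul_smul]; exact hz)
  have h3 : γ • nodalDomain f z0 = nodalDomain f z0 := by
    refine Set.Subset.antisymm h1 ?_
    have h4 := Set.smul_set_mono (a := γ) h2
    rwa [smul_inv_smul] at h4
  exact h3

theorem result (N : ℕ) (hN : 3 ≤ N) (f : ℂ → ℝ) (μ : ℝ) (hμ : 0 < μ)
    (hf : IsMaassCuspForm N f μ) (s : ℝ) (hs : 1 / 2 ≤ s) (z0 : ℍ) (h0 : f z0 ≠ 0)
    (K : Set ℍ) (hKne : K.Nonempty) (hK : GeodesicallyConvex K)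
    (hKinv : ∀ γ ∈ domainGroup N f z0, ∀ z ∈ K, γ • z ∈ K)
    (E : Set ℍ) (hE : MeasurableSet E)
    (hcov : ∀ z ∈ K, ∃ γ ∈ domainGroup N f z0, ∃ w ∈ E, z = γ • w)
    (V : ℝ) (hV0 : 0 ≤ V) (hV : volume E ≤ ENNReal.ofReal V)
    (hsmall : 13 + 10 / 9 * V ≤ (((N : ℝ) ^ 2 - 3) / Real.exp 2) ^ s) :
    s * (1 - s) ≤ μ := by
  by_contra hc
  push Not at hc
  have hμ4 : μ < 1 / 4 := by nlinarith [sq_nonneg (s - 1 / 2)]
  have hE' := isEig hN hμ hμ4 hf
  have hl2 := fun γ => Pool.Agent.K7.H58.Nodal.l2_conv hE'.smooth.continuousOn γ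
    (hf.squareIntegrable γ)
  obtain ⟨x0, hx0⟩ := hKne
  have h1 : ∀ γ ∈ domainGroup N f z0, γ ∈ CongruenceSubgroup.Gamma N := fun γ hγ => hγ.1
  have h2 : ∀ γ ∈ domainGroup N f z0, ∀ z ∈ nodalDomain f z0, γ • z ∈ nodalDomain f z0 := by
    intro γ hγ z hz
    have h3 : γ • nodalDomain f z0 = nodalDomain f z0 := hγ.2
    have h4 := Set.smul_mem_smul_set (a := γ) hz
    rwa [h3] at h4
  have h3 : ∀ γ ∈ CongruenceSubgroup.Gamma N, ∀ z ∈ nodalDomain f z0,
      γ • z ∈ nodalDomain f z0 → γ ∈ domainGroup N f z0 := fun γ hγ z hz hγz =>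
    mem_domainGroup hf.invariant hγ hz hγz
  rcases lt_or_gt_of_ne h0 with h4 | h4
  · have hcomp : Pool.Agent.K7.H58.Nodal.comp (fun w => -f w) z0 = nodalDomain f z0 :=
      Pool.Agent.K7.H58.Nodal.comp_neg f z0
    refine Pool.Agent.K7.H58.Core.core_pos hN hE'.neg hμ ?_ hs hc (z0 := z0) (by simpa using h4)
      (Λ := domainGroup N f z0) h1 (by rw [hcomp]; exact h2) (by rw [hcomp]; exact h3) hK hKinv
      hx0 hE hcov hV hV0 hsmall
    intro γ
    have := hl2 γ
    simpa using this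
  · exact Pool.Agent.K7.H58.Core.core_pos hN hE' hμ hl2 hs hc (z0 := z0) h4
      (Λ := domainGroup N f z0) h1 h2 h3 hK hKinv hx0 hE hcov hV hV0 hsmall

end Pool.Agent.Results.MP_a812b2_nt.ConvexCore
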