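import Mathlib
import Pool.Agent.K7.H58.Nodal.Bdd

/-!
# Cusp forms of small eigenvalue on `Γ(N)` have only large nodal domains

Let `N ≥ 3`, let `f` be a real Maass cusp form for `Γ(N)` with eigenvalue `μ > 0`, and let
`s ≥ 1/2`.  Put `c = (2π/s) (((N²-2)/2)^s - 1)`.  If some nodal domain `D` of `f` on the surface
`Γ(N)\ℍ` satisfies `∫_D |f| < c |f(z₀)|` for a point `z₀` of `D`, then `μ ≥ s (1 - s)`.
For `s = 1/2` the conclusion is Selberg's bound `μ ≥ 1/4`.
Since a cusp form is bounded, the hypothesis holds for a suitable point `z₀` as soon as the area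
of `D` is less than `c`; this is `area_version` below.

The proof has three parts.  For `μ < 1/4` a nodal domain in `ℍ` is not mapped to itself by any
parabolic element (winding argument and minimum principle); hence the part of it in a ball of
radius `arcosh ((N²-2)/2)` has disjoint `Γ(N)`-translates; and a sharp mean value inequality for
the positive part of `f` in this ball gives the bound.
-/

set_option autoImplicit false

namespace Pool.Agent.Results.MP_a812b2_nt.NodalDomains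

open UpperHalfPlane MeasureTheory
open scoped MatrixGroups

/-- `f` is a real Maass cusp form for `Γ(N)` with Laplace eigenvalue `μ`. -/
structure IsMaassCuspForm (N : ℕ) (f : ℂ → ℝ) (μ : ℝ) : Prop where
  /-- `f` is smooth on the upper half plane -/
  smooth : ContDiffOn ℝ (⊤ : ℕ∞) f {w : ℂ | 0 < w.im}
  /-- `f` is `Γ(N)`-invariant -/
  invariant : ∀ γ ∈ CongruenceSubgroup.Gamma N, ∀ z : ℍ, f ((γ • z : ℍ) : ℂ) = f (z : ℂ)
  /-- `-y² (f_xx + f_yy) = μ f` -/
  eigen : ∀ z : ℍ,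
    -((z.im : ℝ) ^ 2) *
      (deriv (fun s : ℝ => deriv (fun t : ℝ => f ((t : ℂ) + (z.im : ℂ) * Complex.I)) s) z.re
        + deriv (fun s : ℝ => deriv (fun t : ℝ => f ((z.re : ℂ) + (t : ℂ) * Complex.I)) s) z.im)
      = μ * f (z : ℂ)
  /-- `f` is square integrable on `Γ(N)\ℍ`, i.e. on each translate of the standard domain -/
  squareIntegrable : ∀ γ : SL(2, ℤ), IntegrableOn (fun w : ℂ => ‖f w‖ ^ 2 / w.im ^ 2)
    ((fun z : ℍ => ((γ • z : ℍ) : ℂ)) '' ModularGroup.fd)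
  /-- the constant terms of `f` at all cusps vanish -/
  cuspidal : ∀ γ : SL(2, ℤ), ∀ y : ℝ, 0 < y →
    ∫ x in (0 : ℝ)..N, f ((γ • ofComplex (x + y * Complex.I) : ℍ) : ℂ) = 0

/-- the nodal domain of `f` containing `z0`: the connected component of `z0` in `{f ≠ 0}` -/
def nodalDomain (f : ℂ → ℝ) (z0 : ℍ) : Set ℍ := connectedComponentIn {z : ℍ | f z ≠ 0} z0

/-- `S` is contained in the union of the `Γ(N)`-translates of `E` -/
def Covers (N : ℕ) (E S : Set ℍ) : Prop :=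
  ∀ z ∈ S, ∃ γ ∈ CongruenceSubgroup.Gamma N, ∃ w ∈ E, z = γ • w

/-- the union of the `Γ(N)`-translates of `S` -/
def saturation (N : ℕ) (S : Set ℍ) : Set ℍ :=
  {z : ℍ | ∃ γ ∈ CongruenceSubgroup.Gamma N, γ • z ∈ S}

theorem isEig {N : ℕ} (hN : 3 ≤ N) {f : ℂ → ℝ} {μ : ℝ} (hμ : 0 < μ) (hμ4 : μ < 1 / 4)
    (hf : IsMaassCuspForm N f μ) : Pool.Agent.K7.H58.Nodal.Eig N f μ :=
  Pool.Agent.K7.H58.Nodal.eig_of_cusp (by omega) hμ hμ4
    (hf.smooth.of_le (WithTop.coe_le_coe.2 (le_top : (2 : ℕ∞) ≤ ⊤))) hf.invariant hf.eigen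
    hf.squareIntegrable hf.cuspidal

theorem result (N : ℕ) (hN : 3 ≤ N) (f : ℂ → ℝ) (μ : ℝ) (hμ : 0 < μ)
    (hf : IsMaassCuspForm N f μ) (s : ℝ) (hs : 1 / 2 ≤ s)
    (hsmall : ∃ z0 : ℍ, f z0 ≠ 0 ∧ ∃ E : Set ℍ, MeasurableSet E ∧
      Covers N E (nodalDomain f z0) ∧
      ∫⁻ z in E ∩ saturation N (nodalDomain f z0), ENNReal.ofReal |f z| <
        ENNReal.ofReal (2 * Real.pi / s * ((((N : ℝ) ^ 2 - 2) / 2) ^ s - 1) * |f z0|)) :
    s * (1 - s) ≤ μ := by
  obtain ⟨z0, h0, E, hE, hcov, hlt⟩ := hsmall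
  by_contra hc
  push Not at hc
  have hμ4 : μ < 1 / 4 := by nlinarith [sq_nonneg (s - 1 / 2)]
  exact absurd hlt (not_lt.2
    (Pool.Agent.K7.H58.Nodal.l1_bound hN (isEig hN hμ hμ4 hf) hμ hs hc h0 hE hcov))

/-- The same conclusion if the area of some nodal domain on `Γ(N)\ℍ` is small. -/
theorem area_version (N : ℕ) (hN : 3 ≤ N) (f : ℂ → ℝ) (μ : ℝ) (hμ : 0 < μ)
    (hf : IsMaassCuspForm N f μ) (s : ℝ) (hs : 1 / 2 ≤ s)
    (hsmall : ∃ z0 : ℍ, f z0 ≠ 0 ∧ ∃ E : Set ℍ, MeasurableSet E ∧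
      Covers N E (nodalDomain f z0) ∧
      volume E < ENNReal.ofReal (2 * Real.pi / s * ((((N : ℝ) ^ 2 - 2) / 2) ^ s - 1))) :
    s * (1 - s) ≤ μ := by
  obtain ⟨z0, h0, E, hE, hcov, hlt⟩ := hsmall
  by_contra hc
  push Not at hc
  have hμ4 : μ < 1 / 4 := by nlinarith [sq_nonneg (s - 1 / 2)]
  have hE' := isEig hN hμ hμ4 hf
  have hl2 := fun γ => Pool.Agent.K7.H58.Nodal.l2_conv hE'.smooth.continuousOn γ
    (hf.squareIntegrable γ)
  rcases lt_or_gt_of_ne h0 with h1 | h1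
  · refine absurd hlt (not_lt.2 (Pool.Agent.K7.H58.Nodal.area_pos hN hE'.neg hμ ?_ hs hc
      (z0 := z0) (by simpa using h1) hE ?_))
    · intro γ
      have := hl2 γ
      simpa using this
    · rw [Pool.Agent.K7.H58.Nodal.comp_neg]
      exact hcov
  · exact absurd hlt (not_lt.2
      (Pool.Agent.K7.H58.Nodal.area_pos hN hE' hμ hl2 hs hc h1 hE hcov))

end Pool.Agent.Results.MP_a812b2_nt.NodalDomains
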