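import Mathlib
import Pool.Agent.K7.H58.Core.SupMain

/-!
# Sup norms of cusp forms of small eigenvalue on `Γ(N)`

Let `N ≥ 3`, let `f` be a real Maass cusp form for `Γ(N)` with eigenvalue `μ > 0`, let `s ≥ 1/2`
and let `D` be a nodal domain of `f` on `Γ(N)\ℍ`.  If
`∫_D f² < 2π (∫_1^((N²-2)/2) t^(2s-2) dt) |f(z₀)|²` for some point `z₀` of `D`,
then `μ ≥ s (1 - s)`.

For `s = 1/2` the constant is `2π log ((N²-2)/2)`; so every cusp form with
`sup_D |f|² > (2π log ((N²-2)/2))⁻¹ ∫_D f²` for one of its nodal domains `D` satisfies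
Selberg's bound `μ ≥ 1/4`.  In other words, the cusp forms with `μ < 1/4` have, in the level
aspect, uniformly small values in the whole of `Γ(N)\ℍ`, the cusps included:
`|f|² ≤ (2π log ((N²-2)/2))⁻¹ ‖f‖²`; and if `μ < s (1 - s)` with `s > 1/2`, then
`|f|² ≤ C_s N^(2-4s) ‖f‖²`.

The proof: for `μ < 1/4` the part of a nodal domain in `ℍ` in a ball of radius
`arcosh ((N²-2)/2)` has disjoint `Γ(N)`-translates.  The mean value inequality
`|f(z₀)| (2π/s) (P^s - 1) ≤ ∫ |f|` (integral over the part of the nodal domain in the ball with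
`cosh d ≤ P`) for all `P ≤ (N²-2)/2` together gives a lower bound for the integral of `|f|` with
the weight `(cosh d)^(s-1)`, and the Cauchy-Schwarz inequality with this weight is sharp for
radial functions.
-/

set_option autoImplicit false

namespace Pool.Agent.Results.MP_a812b2_nt.SupNorm

open UpperHalfPlane MeasureTheory
open scoped MatrixGroups

/-- `f` is a real Maass cusp form for `Γ(N)` with Laplace eigenvalue `μ`. -/
structure IsMaassCuspForm (N : ℕ) (f : ℂ → ℝ) (μ : ℝ) : Prop where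
  /-- `f` is smooth on the upper half plane -/
  smooth : ContDiffOn ℝ (⊤ : ℕ∞) f {w : ℂ | 0 < w.im}
  /-- `f` is `Γ(N)`-invariant -/
  invariant : ∀ γ ∈ CongruenceSubgroup.Gamma N, ∀ z : ℍ, f ((γ • z : ℍ) : ℂ) = f (z : ℂ)
  /-- `-y² (f_xx + f_yy) = μ f` -/
  eigen : ∀ z : ℍ,
    -((z.im : ℝ) ^ 2) *
      (deriv (fun s : ℝ => deriv (fun t : ℝ => f ((t : ℂ) + (z.im : ℂ) * Complex.I)) s) z.re
        + deriv (fun s : ℝ => deriv (fun t : ℝ => f ((z.re : ℂ) + (t : ℂ) * Complex.I)) s) z.im)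
      = μ * f (z : ℂ)
  /-- `f` is square integrable on `Γ(N)\ℍ`, i.e. on each translate of the standard domain -/
  squareIntegrable : ∀ γ : SL(2, ℤ), IntegrableOn (fun w : ℂ => ‖f w‖ ^ 2 / w.im ^ 2)
    ((fun z : ℍ => ((γ • z : ℍ) : ℂ)) '' ModularGroup.fd)
  /-- the constant terms of `f` at all cusps vanish -/
  cuspidal : ∀ γ : SL(2, ℤ), ∀ y : ℝ, 0 < y →
    ∫ x in (0 : ℝ)..N, f ((γ • ofComplex (x + y * Complex.I) : ℍ) : ℂ) = 0

/-- the nodal domain of `f` containing `z0`: the connected component of `z0` in `{f ≠ 0}` -/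
def nodalDomain (f : ℂ → ℝ) (z0 : ℍ) : Set ℍ := connectedComponentIn {z : ℍ | f z ≠ 0} z0

/-- `S` is contained in the union of the `Γ(N)`-translates of `E` -/
def Covers (N : ℕ) (E S : Set ℍ) : Prop :=
  ∀ z ∈ S, ∃ γ ∈ CongruenceSubgroup.Gamma N, ∃ w ∈ E, z = γ • w

/-- the union of the `Γ(N)`-translates of `S` -/
def saturation (N : ℕ) (S : Set ℍ) : Set ℍ :=
  {z : ℍ | ∃ γ ∈ CongruenceSubgroup.Gamma N, γ • z ∈ S}

theorem isEig {N : ℕ} (hN : 3 ≤ N) {f : ℂ → ℝ} {μ : ℝ} (hμ : 0 < μ) (hμ4 : μ < 1 / 4)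
    (hf : IsMaassCuspForm N f μ) : Pool.Agent.K7.H58.Nodal.Eig N f μ :=
  Pool.Agent.K7.H58.Nodal.eig_of_cusp (by omega) hμ hμ4
    (hf.smooth.of_le (WithTop.coe_le_coe.2 (le_top : (2 : ℕ∞) ≤ ⊤))) hf.invariant hf.eigen
    hf.squareIntegrable hf.cuspidal

theorem result (N : ℕ) (hN : 3 ≤ N) (f : ℂ → ℝ) (μ : ℝ) (hμ : 0 < μ)
    (hf : IsMaassCuspForm N f μ) (s : ℝ) (hs : 1 / 2 ≤ s)
    (hlarge : ∃ z0 : ℍ, f z0 ≠ 0 ∧ ∃ E : Set ℍ, MeasurableSet E ∧
      Covers N E (nodalDomain f z0) ∧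
      ∫⁻ z in E ∩ saturation N (nodalDomain f z0), ENNReal.ofReal (f z ^ 2) <
        ENNReal.ofReal (2 * Real.pi *
          (∫ t in (1 : ℝ)..(((N : ℝ) ^ 2 - 2) / 2), t ^ (2 * s - 2)) * f z0 ^ 2)) :
    s * (1 - s) ≤ μ := by
  obtain ⟨z0, h0, E, hE, hcov, hlt⟩ := hlarge
  by_contra hc
  push Not at hc
  have hμ4 : μ < 1 / 4 := by nlinarith [sq_nonneg (s - 1 / 2)]
  exact absurd hlt (not_lt.2
    (Pool.Agent.K7.H58.Core.sup_bound hN (isEig hN hμ hμ4 hf) hμ hs hc h0 hE hcov))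

end Pool.Agent.Results.MP_a812b2_nt.SupNorm
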